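import Mathlib

/-!
# Spherical modules and the convex hull conjecture: definitions

A real reductive Lie algebra with Cartan involution, its finite dimensional representations and its
Harish-Chandra modules with invariant Hermitian form.
-/

set_option autoImplicit false

open scoped InnerProductSpace

namespace Pool.Agent.Lib.MP_4322ef_al.SR

/-- A real reductive Lie algebra `g` (bracket `br`) with Cartan involution `th` and an invariant
form `β`; the inner product of `g` is `⟪A, B⟫ = - β(A, th B)`, so `ad A` has the adjoint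
`- ad (th A)`. Every real reductive Lie algebra with every Cartan involution is of this form. -/
structure RedLie (g : Type) [NormedAddCommGroup g] [InnerProductSpace ℝ g] where
  /-- the bracket -/
  br : g →ₗ[ℝ] g →ₗ[ℝ] g
  /-- the Cartan involution -/
  th : g →ₗ[ℝ] g
  br_self : ∀ A, br A A = 0
  jacobi : ∀ A B D, br A (br B D) = br (br A B) D + br B (br A D)
  th_th : ∀ A, th (th A) = A
  th_br : ∀ A B, th (br A B) = br (th A) (th B)
  inner_th : ∀ A B, ⟪th A, th B⟫_ℝ = ⟪A, B⟫_ℝ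
  inner_br : ∀ A B D, ⟪br A B, D⟫_ℝ = - ⟪B, br (th A) D⟫_ℝ

variable {g : Type} [NormedAddCommGroup g] [InnerProductSpace ℝ g] (L : RedLie g)

/-- The projection `A ↦ (A + th A) / 2` of `g` onto `k₀ = {Z | th Z = Z}`. -/
noncomputable def RedLie.kk : g →ₗ[ℝ] g := (1 / 2 : ℝ) • (LinearMap.id + L.th)

/-- The projection `A ↦ (A - th A) / 2` of `g` onto `p₀ = {Z | th Z = - Z}`. -/
noncomputable def RedLie.pp : g →ₗ[ℝ] g := (1 / 2 : ℝ) • (LinearMap.id - L.th)

/-- A representation of the real Lie algebra `g` on a complex vector space. -/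
structure Rep (X : Type) [AddCommGroup X] [Module ℂ X] where
  /-- the operators -/
  op : g → X →ₗ[ℂ] X
  add : ∀ A B, op (A + B) = op A + op B
  smul : ∀ (r : ℝ) (A : g), op (r • A) = (r : ℂ) • op A
  bracket : ∀ A B x, op (L.br A B) x = op A (op B x) - op B (op A x)

/-- A unitary representation of `k₀ = {Z | th Z = Z}` (only the operators `op Z` with `th Z = Z`
matter). -/
structure KRep (D : Type) [NormedAddCommGroup D] [InnerProductSpace ℂ D] where
  /-- the operators -/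
  op : g → D →ₗ[ℂ] D
  add : ∀ A B, L.th A = A → L.th B = B → op (A + B) = op A + op B
  smul : ∀ (r : ℝ) (A : g), L.th A = A → op (r • A) = (r : ℂ) • op A
  bracket : ∀ A B, L.th A = A → L.th B = B → ∀ x, op (L.br A B) x = op A (op B x) - op B (op A x)
  skew : ∀ Z, L.th Z = Z → ∀ x y, ⟪op Z x, y⟫_ℂ = - ⟪x, op Z y⟫_ℂ

/-- The intertwining operators `T` with `op Z (T d) = T (κ Z d)` for all `Z` in `k₀`. -/
def KHom {X : Type} [AddCommGroup X] [Module ℂ X] (op : g → X →ₗ[ℂ] X) {D : Type} [AddCommGroup D]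
    [Module ℂ D] (κ : g → D →ₗ[ℂ] D) : Submodule ℂ (D →ₗ[ℂ] X) where
  carrier := {T | ∀ Z, L.th Z = Z → ∀ d, op Z (T d) = T (κ Z d)}
  add_mem' := by
    intro S T hS hT Z hZ d
    simp only [LinearMap.add_apply, map_add, hS Z hZ d, hT Z hZ d]
  zero_mem' := by
    intro Z _ d
    simp
  smul_mem' := by
    intro c T hT Z hZ d
    simp only [LinearMap.smul_apply, map_smul, hT Z hZ d]

/-- An irreducible Harish-Chandra module `X` of `g`: the inner product of `X` is invariant under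
`k₀`, every vector lies in a finite dimensional `k₀`-stable subspace, all `k₀`-types have finite
multiplicity, and there are no `g`-stable subspaces. -/
structure HC (X : Type) [NormedAddCommGroup X] [InnerProductSpace ℂ X] extends Rep L X where
  skew : ∀ Z, L.th Z = Z → ∀ x y, ⟪op Z x, y⟫_ℂ = - ⟪x, op Z y⟫_ℂ
  fin : ∀ x, ∃ U : Submodule ℂ X, FiniteDimensional ℂ U ∧ x ∈ U ∧
    ∀ Z, L.th Z = Z → ∀ u ∈ U, op Z u ∈ U
  adm : ∀ (D : Type) [NormedAddCommGroup D] [InnerProductSpace ℂ D] [FiniteDimensional ℂ D]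
    (κ : KRep L D), FiniteDimensional ℂ (KHom L op κ.op)
  irr : ∀ U : Submodule ℂ X, (∀ Z, ∀ u ∈ U, op Z u ∈ U) → U = ⊥ ∨ U = ⊤

/-- A nonzero invariant Hermitian form on `X` (antilinear in the first variable). -/
structure InvForm {L : RedLie g} {X : Type} [NormedAddCommGroup X] [InnerProductSpace ℂ X] (ρ : HC L X) where
  /-- the form -/
  form : X →ₗ⋆[ℂ] X →ₗ[ℂ] ℂ
  herm : ∀ x y, form y x = star (form x y)
  inv : ∀ Z x y, form (ρ.op Z x) y = - form x (ρ.op Z y)
  ne : form ≠ 0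

/-- A maximal abelian subspace `a` of `p₀ = {Z | th Z = - Z}` with a regular element `H₀` (this
fixes the positive restricted roots). -/
structure CSub where
  /-- the subspace -/
  a : Submodule ℝ g
  /-- the regular element -/
  H₀ : g
  a_p : ∀ H ∈ a, L.th H = -H
  a_comm : ∀ H ∈ a, ∀ H' ∈ a, L.br H H' = 0
  a_max : ∀ Z, L.th Z = -Z → (∀ H ∈ a, L.br H Z = 0) → Z ∈ a
  mem : H₀ ∈ a
  reg : ∀ Z, L.br H₀ Z = 0 → ∀ H ∈ a, L.br H Z = 0

variable {L}

/-- The nilpotent subalgebra `n₀`: the sum of the positive restricted root spaces. -/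
def CSub.n (C : CSub L) : Submodule ℝ g :=
  Submodule.span ℝ {Z | ∃ r : ℝ, 0 < r ∧ L.br C.H₀ Z = r • Z}

/-- `rho H` is half the trace of `ad H` on `n₀`: half the sum of the positive restricted roots
(with multiplicities). -/
noncomputable def CSub.rho [FiniteDimensional ℝ g] (C : CSub L) (H : g) : ℝ :=
  (1 / 2) * LinearMap.trace ℝ g ((C.n.starProjection : g →ₗ[ℝ] g) ∘ₗ L.br H)

section
variable {X : Type} [NormedAddCommGroup X] [InnerProductSpace ℂ X] (ρ : HC L X)

/-- `V` is a `k₀`-type of `X`: an irreducible finite dimensional `k₀`-stable subspace. -/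
structure KType (V : Submodule ℂ X) : Prop where
  fin : FiniteDimensional ℂ V
  ne : V ≠ ⊥
  stable : ∀ Z, L.th Z = Z → ∀ v ∈ V, ρ.op Z v ∈ V
  irr : ∀ U ≤ V, (∀ Z, L.th Z = Z → ∀ v ∈ U, ρ.op Z v ∈ U) → U = ⊥ ∨ U = V

/-- The `k₀`-type `V` of `X` occurs in `V₀ ⊗ Y`: there is a nonzero `k₀`-equivariant bilinear map
`V₀ × Y → V`. -/
def Occurs (V₀ : Submodule ℂ X) {Y : Type} [AddCommGroup Y] [Module ℂ Y] (σ : Rep L Y)
    (V : Submodule ℂ X) : Prop :=
  ∃ b : V₀ →ₗ[ℂ] Y →ₗ[ℂ] X, (∀ v y, b v y ∈ V) ∧ (∃ v y, b v y ≠ 0) ∧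
    ∀ Z, L.th Z = Z → ∀ v v' : V₀, (v' : X) = ρ.op Z v → ∀ y,
      ρ.op Z (b v y) = b v' y + b v (σ.op Z y)

/-- The Casimir operator `- ∑ (k i) ^ 2` of `k₀` on `X`: `k i` are the projections to `k₀` of an
orthonormal basis of `g` (any orthonormal basis of `g`, and any orthonormal basis of `k₀`, gives the
same operator). -/
noncomputable def casimir [FiniteDimensional ℝ g] (x : X) : X :=
  - ∑ i, ρ.op (L.kk (stdOrthonormalBasis ℝ g i)) (ρ.op (L.kk (stdOrthonormalBasis ℝ g i)) x)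

/-- `smallBound Z = (1 / 2) tr |ad Z|_p|` for `Z` in `k₀`: half of the sum of the absolute values of
the complex eigenvalues (with multiplicities) of `ad Z` on `p₀`. It is the sum of the positive
values at `i Z` of the weights of `p₀`. -/
noncomputable def smallBound [FiniteDimensional ℝ g] (L : RedLie g) (Z : g) : ℝ :=
  (1 / 2) * ((((L.br Z ∘ₗ L.pp).charpoly.map (algebraMap ℝ ℂ)).roots).map fun z => ‖z‖).sum

/-- `Z` lies in `k₀` and is orthogonal to the centre of `g`. -/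
def RedLie.InK (L : RedLie g) (Z : g) : Prop :=
  L.th Z = Z ∧ ∀ A, (∀ B, L.br A B = 0) → ⟪A, Z⟫_ℝ = 0

/-- The `k₀`-type `V` of `X` is unitarily small: for every `Z` in `k₀` orthogonal to the centre of
`g` all eigenvalues of `Z` on `V` are bounded by `smallBound Z`, i.e. all weights of `V` lie in the
convex hull of the weights of the exterior algebra of `p₀`. -/
def USmall [FiniteDimensional ℝ g] (V : Submodule ℂ X) : Prop :=
  ∀ Z, L.InK Z → ∀ v ∈ V, v ≠ 0 → ∀ z : ℂ, ρ.op Z v = z • v → ‖z‖ ≤ smallBound L Z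

/-- All `k₀`-types of `V₀ ⊗ Y` are unitarily small. -/
def TensorSmall [FiniteDimensional ℝ g] (V₀ : Submodule ℂ X) {Y : Type} [AddCommGroup Y]
    [Module ℂ Y] (σ : Rep L Y) : Prop :=
  ∀ Z, L.InK Z → ∀ v ∈ V₀, v ≠ 0 → ∀ z : ℂ, ρ.op Z v = z • v →
    ∀ y : Y, y ≠ 0 → ∀ w : ℂ, σ.op Z y = w • y → ‖z + w‖ ≤ smallBound L Z

/-- `rho - ν` is an exponent of `X`: there is a nonzero linear functional on `X / n₀ X` of weight
`rho - ν` under `a₀`. (Casselman: every irreducible `X` has such exponents; the Langlands quotient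
with parameter `ν` of a minimal principal series has the exponent `rho - ν`.) -/
def HasExponent [FiniteDimensional ℝ g] (C : CSub L) (ν : g →ₗ[ℝ] ℂ) : Prop :=
  ∃ ε : X →ₗ[ℂ] ℂ, ε ≠ 0 ∧ (∀ Z ∈ C.n, ∀ x, ε (ρ.op Z x) = 0) ∧
    ∀ H ∈ C.a, ∀ x, ε (ρ.op H x) = ((C.rho H : ℂ) - ν H) * ε x

end

/-- `Y` is a finite dimensional representation of `g` with a `k₀`-fixed vector `u₀`, not orthogonal
to a highest restricted weight vector `y₁` of weight `H ↦ ⟪h, H⟫`. -/
structure IsSpherical (C : CSub L) {Y : Type} [NormedAddCommGroup Y] [InnerProductSpace ℂ Y]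
    (σ : Rep L Y) (h : g) : Prop where
  fin : FiniteDimensional ℂ Y
  adj : ∀ A y y', ⟪σ.op A y, y'⟫_ℂ = -⟪y, σ.op (L.th A) y'⟫_ℂ
  mem : h ∈ C.a
  vec : ∃ u₀ y₁ : Y, (∀ Z, L.th Z = Z → σ.op Z u₀ = 0) ∧ (∀ Z ∈ C.n, σ.op Z y₁ = 0) ∧
    (∀ H ∈ C.a, σ.op H y₁ = (⟪h, H⟫_ℝ : ℂ) • y₁) ∧ ⟪u₀, y₁⟫_ℂ ≠ 0

/-- `h` is the highest restricted weight of a finite dimensional spherical representation of `g` all
of whose `k₀`-types are unitarily small. -/
def SmallDir [FiniteDimensional ℝ g] (C : CSub L) (h : g) : Prop :=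
  ∃ (Y : Type) (_ : NormedAddCommGroup Y) (_ : InnerProductSpace ℂ Y) (σ : Rep L Y),
    IsSpherical C σ h ∧ ∀ Z, L.InK Z → ∀ y : Y, y ≠ 0 → ∀ w : ℂ, σ.op Z y = w • y →
      ‖w‖ ≤ smallBound L Z

end Pool.Agent.Lib.MP_4322ef_al.SR
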