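import Pool.Agent.Lib.MP_4322ef_al.SR.Main

/-! The final statements. -/

set_option autoImplicit false

open scoped InnerProductSpace TensorProduct

namespace Pool.Agent.Lib.MP_4322ef_al.SR

section
variable {g : Type} [NormedAddCommGroup g] [InnerProductSpace ℝ g] {L : RedLie g}
  {X : Type} [NormedAddCommGroup X] [InnerProductSpace ℂ X] (ρ : HC L X) [FiniteDimensional ℝ g]

theorem rho_sum (C : CSub L) {N : ℕ} (t : Fin N → ℝ) (h : Fin N → g) :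
    C.rho (∑ i, t i • h i) = ∑ i, t i * C.rho (h i) := by
  have h1 : ∀ H, C.rho H = ((1 / 2 : ℝ) • (LinearMap.trace ℝ g) ∘ₗ
      (LinearMap.llcomp ℝ g g g (C.n.starProjection : g →ₗ[ℝ] g)) ∘ₗ L.br) H := fun H => rfl
  simp only [h1, map_sum, map_smul, smul_eq_mul]

/-- the general theorem in terms of `ν` -/
theorem partB (C : CSub L) (B : InvForm ρ) (ν : g →ₗ[ℝ] ℂ) (hν : HasExponent ρ C ν)
    {Y : Type} [NormedAddCommGroup Y] [InnerProductSpace ℂ Y] (σ : Rep L Y) (h : g)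
    (hY : IsSpherical C σ h) (V₀ : Submodule ℂ X) (hV₀ : KType ρ V₀) (c₀ s : ℝ)
    (hc : ∀ v ∈ V₀, casimir ρ v = (c₀ : ℂ) • v)
    (hs : ∀ V, KType ρ V → Occurs ρ V₀ σ V → ∀ c : ℝ, (∀ v ∈ V, casimir ρ v = (c : ℂ) • v) →
      c₀ - 2 * s ≤ c)
    (hlt : C.rho h + s < (ν h).re) : ∃ V₁ V₂ : Submodule ℂ X, KType ρ V₁ ∧ KType ρ V₂ ∧
      Occurs ρ V₀ σ V₁ ∧ Occurs ρ V₀ σ V₂ ∧ (∀ v ∈ V₁, v ≠ 0 → 0 < (B.form v v).re) ∧
      (∀ v ∈ V₂, v ≠ 0 → (B.form v v).re < 0) ∧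
      (TensorSmall ρ V₀ σ → USmall ρ V₁ ∧ USmall ρ V₂) := by
  obtain ⟨ε, hε, hn, ha⟩ := hν
  have hfin := hY.fin
  obtain ⟨u₀, y₁, hu, hy, hw, hne⟩ := hY.vec
  refine general ρ σ C B ε hε (fun H => (C.rho H : ℂ) - ν H) hn ha hY.adj hY.mem u₀ y₁ hu hy hw hne
    V₀ hV₀ c₀ s hc hs ?_
  show s < (-((C.rho h : ℂ) - ν h)).re
  rw [neg_sub, Complex.sub_re, Complex.ofReal_re]
  linarith

omit [FiniteDimensional ℝ g] in
theorem line_ktype {x₀ : X} (hx₀ : x₀ ≠ 0) (hk : ∀ Z, L.th Z = Z → ρ.op Z x₀ = 0) :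
    KType ρ (Submodule.span ℂ {x₀}) where
  fin := inferInstance
  ne := by
    rw [Ne, Submodule.span_singleton_eq_bot]
    exact hx₀
  stable := by
    intro Z hZ v hv
    obtain ⟨c, rfl⟩ := Submodule.mem_span_singleton.1 hv
    rw [map_smul, hk Z hZ, smul_zero]
    exact Submodule.zero_mem _
  irr := by
    intro U hU _
    by_cases h : x₀ ∈ U
    · exact Or.inr (le_antisymm hU ((Submodule.span_singleton_le_iff_mem _ _).2 h))
    · left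
      rw [Submodule.eq_bot_iff]
      intro u hu
      obtain ⟨c, rfl⟩ := Submodule.mem_span_singleton.1 (hU hu)
      by_cases hc : c = 0
      · rw [hc, zero_smul]
      · exact absurd ((U.smul_mem_iff hc).1 hu) h

theorem partA (C : CSub L) (B : InvForm ρ) (ν : g →ₗ[ℝ] ℂ) (hν : HasExponent ρ C ν)
    {x₀ : X} (hx₀ : x₀ ≠ 0) (hk : ∀ Z, L.th Z = Z → ρ.op Z x₀ = 0)
    {N : ℕ} (t : Fin N → ℝ) (h : Fin N → g) (ht : ∀ i, 0 ≤ t i) (hh : ∀ i, SmallDir C (h i))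
    (hlt : C.rho (∑ i, t i • h i) < (ν (∑ i, t i • h i)).re) :
    ∃ V₁ V₂ : Submodule ℂ X, KType ρ V₁ ∧ KType ρ V₂ ∧ USmall ρ V₁ ∧ USmall ρ V₂ ∧
      (∀ v ∈ V₁, v ≠ 0 → 0 < (B.form v v).re) ∧ (∀ v ∈ V₂, v ≠ 0 → (B.form v v).re < 0) := by
  have h1 : ∃ i, C.rho (h i) < (ν (h i)).re := by
    by_contra hcon
    push Not at hcon
    refine absurd hlt (not_lt.2 ?_)
    rw [rho_sum, map_sum, Complex.re_sum]
    refine Finset.sum_le_sum fun i _ => ?_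
    rw [map_smul, Complex.real_smul, Complex.re_ofReal_mul]
    exact mul_le_mul_of_nonneg_left (hcon i) (ht i)
  obtain ⟨i, hi⟩ := h1
  obtain ⟨Y, _, _, σ, hY, hsm⟩ := hh i
  have hcas : ∀ v ∈ Submodule.span ℂ {x₀}, casimir ρ v = ((0 : ℝ) : ℂ) • v := by
    intro v hv
    obtain ⟨c, rfl⟩ := Submodule.mem_span_singleton.1 hv
    rw [casimir_eq ρ (stdOrthonormalBasis ℝ g), Complex.ofReal_zero, zero_smul,
      Finset.sum_eq_zero, neg_zero]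
    intro j _
    rw [map_smul, hk _ (th_kk L _), smul_zero, map_zero]
  obtain ⟨V₁, V₂, hK₁, hK₂, _, _, hp, hm, hsmall⟩ := partB ρ C B ν hν σ (h i) hY
    (Submodule.span ℂ {x₀}) (line_ktype ρ hx₀ hk) 0 0 hcas
    (by
      intro V hV _ c hc
      rw [mul_zero, sub_zero]
      obtain ⟨v, hv, hv0⟩ := (Submodule.ne_bot_iff V).1 hV.ne
      have h2 := casimir_nonneg ρ v
      rw [hc v hv, inner_smul_right, inner_self_eq_norm_sq_to_K] at h2
      have h3 : ((c : ℂ) * ((‖v‖ : ℝ) : ℂ) ^ 2).re = c * ‖v‖ ^ 2 := by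
        rw [← Complex.ofReal_pow, ← Complex.ofReal_mul, Complex.ofReal_re]
      have h4 : 0 ≤ c * ‖v‖ ^ 2 := le_of_le_of_eq h2 h3
      exact nonneg_of_mul_nonneg_left h4 (pow_pos (norm_pos_iff.2 hv0) 2))
    (by rw [add_zero]; exact hi)
  have h5 : TensorSmall ρ (Submodule.span ℂ {x₀}) σ := by
    intro Z hZ v hv hv0 z hz y hy w hw
    obtain ⟨c, rfl⟩ := Submodule.mem_span_singleton.1 hv
    rw [map_smul, hk Z hZ.1, smul_zero] at hz
    have hz0 : z = 0 := (smul_eq_zero.1 hz.symm).resolve_right hv0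
    rw [hz0, zero_add]
    exact hsm Z hZ y hy w hw
  exact ⟨V₁, V₂, hK₁, hK₂, (hsmall h5).1, (hsmall h5).2, hp, hm⟩

end

end Pool.Agent.Lib.MP_4322ef_al.SR
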