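import Pool.Agent.Lib.MP_4322ef_al.SR.Y1

/-! The two main theorems: arbitrary `k₀`-types, and spherical modules. -/

set_option autoImplicit false

open scoped InnerProductSpace TensorProduct

namespace Pool.Agent.Lib.MP_4322ef_al.SR

section
variable {g : Type} [NormedAddCommGroup g] [InnerProductSpace ℝ g] {L : RedLie g}
  {X : Type} [NormedAddCommGroup X] [InnerProductSpace ℂ X] (ρ : HC L X)
  {Y : Type} [NormedAddCommGroup Y] [InnerProductSpace ℂ Y] (σ : Rep L Y)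

/-- the action of `k₀` on a `k₀`-stable subspace -/
noncomputable def res (V₀ : Submodule ℂ X) [FiniteDimensional ℂ V₀] (Z : g) : V₀ →ₗ[ℂ] V₀ :=
  (V₀.orthogonalProjectionOnto : X →ₗ[ℂ] V₀) ∘ₗ ρ.op Z ∘ₗ V₀.subtype

theorem res_coe (V₀ : Submodule ℂ X) [FiniteDimensional ℂ V₀] (hV₀ : KSub ρ V₀) {Z : g}
    (hZ : L.th Z = Z) (v : V₀) : ((res ρ V₀ Z v : V₀) : X) = ρ.op Z v := by
  have h : ρ.op Z v ∈ V₀ := hV₀ Z hZ v v.2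
  show ((V₀.orthogonalProjectionOnto (ρ.op Z v) : V₀) : X) = ρ.op Z v
  exact Submodule.starProjection_eq_self_iff.2 h

theorem res_subK (V₀ : Submodule ℂ X) [FiniteDimensional ℂ V₀] (hV₀ : KSub ρ V₀) :
    SubK ρ (res ρ V₀) V₀.subtype :=
  ⟨fun _ hZ v => res_coe ρ V₀ hV₀ hZ v, fun _ _ => rfl⟩

theorem occurs_of_hom (V₀ : Submodule ℂ X) [FiniteDimensional ℂ V₀] (hV₀ : KSub ρ V₀)
    (hσ : ∀ A y y', ⟪σ.op A y, y'⟫_ℂ = -⟪y, σ.op (L.th A) y'⟫_ℂ) (V : Submodule ℂ X)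
    (h : ∃ T ∈ KHom L ρ.op (tData σ (res ρ V₀) hσ).κ, (∀ d, T d ∈ V) ∧ ∃ d, T d ≠ 0) :
    Occurs ρ V₀ σ V := by
  obtain ⟨T, hT, hTV, d, hd⟩ := h
  refine ⟨TensorProduct.curry T, fun v y => hTV _, ?_, ?_⟩
  · by_contra hcon
    push Not at hcon
    apply hd
    have h1 : ∀ z, T z = 0 := by
      intro z
      induction z using TensorProduct.induction_on with
      | zero => rw [map_zero]
      | add x y hx hy => rw [map_add, hx, hy, add_zero]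
      | tmul v y => exact hcon v y
    exact h1 d
  · intro Z hZ v v' hv' y
    have h1 := hT Z hZ (v ⊗ₜ[ℂ] y)
    rw [kap_tmul, map_add] at h1
    have h2 : v' = res ρ V₀ Z v := Subtype.ext (by rw [hv', res_coe ρ V₀ hV₀ hZ])
    rw [h2]
    exact h1

variable [FiniteDimensional ℝ g] [FiniteDimensional ℂ Y]

/-- the smallness of the `k₀`-types of `V₀ ⊗ Y` -/
theorem usmall_of (V₀ : Submodule ℂ X) [FiniteDimensional ℂ V₀] (hV₀ : KSub ρ V₀)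
    (hσ : ∀ A y y', ⟪σ.op A y, y'⟫_ℂ = -⟪y, σ.op (L.th A) y'⟫_ℂ) (hsm : TensorSmall ρ V₀ σ)
    (V : Submodule ℂ X) (hV : KType ρ V) (ho : Occurs ρ V₀ σ V) : USmall ρ V := by
  obtain ⟨b, hbV, ⟨v₁, y₁, hb1⟩, hbe⟩ := ho
  intro Z hZZ x hx hx0 z hz
  have hZ : L.th Z = Z := hZZ.1
  by_contra hcon
  push Not at hcon
  have hzi : star z = -z := by
    have h1 := ρ.skew Z hZ x x
    rw [hz, inner_smul_left, inner_smul_right] at h1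
    have h2 : (star z + z) * ⟪x, x⟫_ℂ = 0 := by
      rw [add_mul]
      have h3 : star z * ⟪x, x⟫_ℂ = -(z * ⟪x, x⟫_ℂ) := h1
      rw [h3, neg_add_cancel]
    have h4 : ⟪x, x⟫_ℂ ≠ 0 := inner_self_ne_zero.2 hx0
    exact eq_neg_of_add_eq_zero_left ((mul_eq_zero.1 h2).resolve_right h4)
  have h1 : ∀ v : V₀, v ≠ 0 → ∀ z₁ : ℂ, res ρ V₀ Z v = z₁ • v → ∀ y : Y, y ≠ 0 → ∀ z₂ : ℂ,
      σ.op Z y = z₂ • y → ⟪x, b v y⟫_ℂ = 0 := by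
    intro v hv z₁ hz₁ y hy z₂ hz₂
    have hz₁' : ρ.op Z v = z₁ • (v : X) := by
      rw [← res_coe ρ V₀ hV₀ hZ, hz₁]
      rfl
    have hv0 : (v : X) ≠ 0 := fun h => hv (Subtype.ext h)
    have hb := hsm Z hZZ v v.2 hv0 z₁ hz₁' y hy z₂ hz₂
    have h2 := hbe Z hZ v (res ρ V₀ Z v) (res_coe ρ V₀ hV₀ hZ v) y
    rw [hz₁, hz₂, map_smul, map_smul, LinearMap.smul_apply, ← add_smul] at h2
    have h3 := ρ.skew Z hZ x (b v y)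
    rw [h2, hz, inner_smul_left, inner_smul_right] at h3
    have h4 : (star z + (z₁ + z₂)) * ⟪x, b v y⟫_ℂ = 0 := by
      rw [add_mul]
      have h5 : star z * ⟪x, b v y⟫_ℂ = -((z₁ + z₂) * ⟪x, b v y⟫_ℂ) := h3
      rw [h5, neg_add_cancel]
    rcases mul_eq_zero.1 h4 with h5 | h5
    · exfalso
      rw [hzi, neg_add_eq_zero] at h5
      rw [h5] at hcon
      exact absurd hb (not_le.2 hcon)
    · exact h5
  have h2 : ∀ v : V₀, v ≠ 0 → ∀ z₁ : ℂ, res ρ V₀ Z v = z₁ • v → ∀ y : Y, ⟪x, b v y⟫_ℂ = 0 := by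
    intro v hv z₁ hz₁ y
    let S : Submodule ℂ Y := LinearMap.ker ((innerₛₗ ℂ x) ∘ₗ (b v))
    have h3 : y ∈ S := skew_span (σ.op Z) (fun x y => by rw [hσ, hZ]) S (fun y hy z₂ hz₂ =>
      LinearMap.mem_ker.2 (h1 v hv z₁ hz₁ y hy z₂ hz₂)) y
    exact LinearMap.mem_ker.1 h3
  have h3 : ∀ (v : V₀) (y : Y), ⟪x, b v y⟫_ℂ = 0 := by
    intro v y
    let S : Submodule ℂ V₀ := LinearMap.ker ((innerₛₗ ℂ x) ∘ₗ (b.flip y))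
    have h4 : v ∈ S := skew_span (res ρ V₀ Z) (fun v w => (res_subK ρ V₀ hV₀).skew hZ v w) S
      (fun v hv z₁ hz₁ => LinearMap.mem_ker.2 (h2 v hv z₁ hz₁ y)) v
    exact LinearMap.mem_ker.1 h4
  let U : Submodule ℂ X := Submodule.span ℂ {w | ∃ (v : V₀) (y : Y), b v y = w}
  have hUV : U ≤ V := by
    refine Submodule.span_le.2 ?_
    rintro _ ⟨v, y, rfl⟩
    exact hbV v y
  have hUs : ∀ Z, L.th Z = Z → ∀ v ∈ U, ρ.op Z v ∈ U := by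
    intro Z hZ
    have h4 : U ≤ U.comap (ρ.op Z) := by
      refine Submodule.span_le.2 ?_
      rintro _ ⟨v, y, rfl⟩
      rw [SetLike.mem_coe, Submodule.mem_comap, hbe Z hZ v (res ρ V₀ Z v) (res_coe ρ V₀ hV₀ hZ v) y]
      exact U.add_mem (Submodule.subset_span ⟨_, _, rfl⟩) (Submodule.subset_span ⟨_, _, rfl⟩)
    exact h4
  have hUne : U ≠ ⊥ := by
    intro h4
    have h5 : b v₁ y₁ ∈ U := Submodule.subset_span ⟨_, _, rfl⟩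
    rw [h4, Submodule.mem_bot] at h5
    exact hb1 h5
  have hUeq : U = V := (hV.irr U hUV hUs).resolve_left hUne
  have h5 : U ≤ LinearMap.ker (innerₛₗ ℂ x : X →ₗ[ℂ] ℂ) := by
    refine Submodule.span_le.2 ?_
    rintro _ ⟨v, y, rfl⟩
    exact LinearMap.mem_ker.2 (h3 v y)
  rw [← hUeq] at hx
  have h6 : ⟪x, x⟫_ℂ = 0 := LinearMap.mem_ker.1 (h5 hx)
  exact hx0 (inner_self_eq_zero.1 h6)

/-- the general theorem -/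
theorem general (C : CSub L) (B : InvForm ρ) (ε : X →ₗ[ℂ] ℂ) (hε : ε ≠ 0) (χ : g → ℂ)
    (hn : ∀ Z ∈ C.n, ∀ x, ε (ρ.op Z x) = 0) (ha : ∀ H ∈ C.a, ∀ x, ε (ρ.op H x) = χ H * ε x)
    (hσ : ∀ A y y', ⟪σ.op A y, y'⟫_ℂ = -⟪y, σ.op (L.th A) y'⟫_ℂ)
    {h : g} (hh : h ∈ C.a) (u₀ y₁ : Y) (hu : ∀ Z, L.th Z = Z → σ.op Z u₀ = 0)
    (hy : ∀ Z ∈ C.n, σ.op Z y₁ = 0) (hw : ∀ H ∈ C.a, σ.op H y₁ = (⟪h, H⟫_ℝ : ℂ) • y₁)
    (hne : ⟪u₀, y₁⟫_ℂ ≠ 0) (V₀ : Submodule ℂ X) (hV₀ : KType ρ V₀) (c₀ s : ℝ)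
    (hc : ∀ v ∈ V₀, casimir ρ v = (c₀ : ℂ) • v)
    (hs : ∀ V, KType ρ V → Occurs ρ V₀ σ V → ∀ c : ℝ, (∀ v ∈ V, casimir ρ v = (c : ℂ) • v) →
      c₀ - 2 * s ≤ c)
    (hχ : s < (-χ h).re) : ∃ V₁ V₂ : Submodule ℂ X, KType ρ V₁ ∧ KType ρ V₂ ∧
      Occurs ρ V₀ σ V₁ ∧ Occurs ρ V₀ σ V₂ ∧ (∀ v ∈ V₁, v ≠ 0 → 0 < (B.form v v).re) ∧
      (∀ v ∈ V₂, v ≠ 0 → (B.form v v).re < 0) ∧
      (TensorSmall ρ V₀ σ → USmall ρ V₁ ∧ USmall ρ V₂) := by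
  have hfin := hV₀.fin
  have hst : KSub ρ V₀ := hV₀.stable
  let δ := tData σ (res ρ V₀) hσ
  have hr := res_subK ρ V₀ hst
  have hE : FiniteDimensional ℂ (KHom L ρ.op δ.κ) := ρ.adm _ (tKRep σ hr hσ)
  obtain ⟨u₁, hu1, hu2, hu3, hu4⟩ := exists_u₁ σ C hσ h u₀ y₁ hu hy hw hne
  obtain ⟨v₁, hv₁, hv₁ε⟩ := eps_ne ρ C ε hε χ hn ha V₀ hst hV₀.ne
  have hocc : ∀ V ≤ XD ρ δ.κ, KType ρ V → Occurs ρ V₀ σ V := fun V hV hK =>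
    occurs_of_hom ρ σ V₀ hst hσ V (XD_occurs ρ δ.κ hK hV)
  let T₁ : V₀ ⊗[ℂ] Y →ₗ[ℂ] X := TensorProduct.lift
    (LinearMap.mk₂ ℂ (fun (v : V₀) (y : Y) => ⟪u₀, y⟫_ℂ • (v : X))
      (fun v v' y => by rw [Submodule.coe_add, smul_add])
      (fun c v y => by rw [Submodule.coe_smul, smul_comm])
      (fun v y y' => by rw [inner_add_right, add_smul])
      (fun c v y => by rw [inner_smul_right, mul_smul]))
  have hT₁a : ∀ (v : V₀) (y : Y), T₁ (v ⊗ₜ[ℂ] y) = ⟪u₀, y⟫_ℂ • (v : X) := fun v y => rfl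
  have hT₁ : T₁ ∈ KHom L ρ.op δ.κ := by
    intro Z hZ d
    induction d using TensorProduct.induction_on with
    | zero => simp only [map_zero]
    | add x y hx hy => simp only [map_add, hx, hy]
    | tmul v y =>
      have h1 : δ.κ Z (v ⊗ₜ[ℂ] y) = (res ρ V₀ Z v) ⊗ₜ[ℂ] y + v ⊗ₜ[ℂ] (σ.op Z y) := rfl
      have h2 : ⟪u₀, σ.op Z y⟫_ℂ = 0 := by
        have h3 := hσ Z u₀ y
        rw [hu Z hZ, inner_zero_left, hZ] at h3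
        exact neg_eq_zero.1 h3.symm
      rw [h1, map_add, hT₁a, hT₁a, hT₁a, h2, zero_smul, add_zero, map_smul,
        res_coe ρ V₀ hst hZ]
  obtain ⟨V₁, V₂, hV₁, hV₂, hK₁, hK₂, hp, hm⟩ := core_types ρ δ C B hE c₀ s
    (tdata_alpha σ hr hσ c₀ (fun v => hc v v.2))
    (fun V hV hK => hs V hK (hocc V hV hK)) hh ε χ hn ha ((⟨v₁, hv₁⟩ : V₀) ⊗ₜ[ℂ] u₁)
    (fun Z hZ => by
      show (⟨v₁, hv₁⟩ : V₀) ⊗ₜ[ℂ] σ.op Z u₁ = 0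
      rw [hu1 Z hZ, TensorProduct.tmul_zero])
    (fun H hH => by
      show (⟨v₁, hv₁⟩ : V₀) ⊗ₜ[ℂ] σ.op H u₁ = _
      rw [hu2 H hH, TensorProduct.tmul_smul])
    (fun Z hZ hZ0 => by
      show (⟨v₁, hv₁⟩ : V₀) ⊗ₜ[ℂ] σ.op Z u₁ = 0
      rw [hu3 Z hZ hZ0, TensorProduct.tmul_zero])
    T₁ hT₁ (by
      rw [hT₁a, map_smul, smul_eq_mul]
      exact mul_ne_zero hu4 hv₁ε) hχ
  exact ⟨V₁, V₂, hK₁, hK₂, hocc V₁ hV₁ hK₁, hocc V₂ hV₂ hK₂, hp, hm, fun hsm =>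
    ⟨usmall_of ρ σ V₀ hst hσ hsm V₁ hK₁ (hocc V₁ hV₁ hK₁),
      usmall_of ρ σ V₀ hst hσ hsm V₂ hK₂ (hocc V₂ hV₂ hK₂)⟩⟩

end

end Pool.Agent.Lib.MP_4322ef_al.SR
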