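import Pool.Agent.Lib.MP_4322ef_al.Mg.G002

/-! The highest weight vector of a spherical representation; eigenvectors of skew operators. -/

set_option autoImplicit false

open scoped InnerProductSpace TensorProduct

namespace Pool.Agent.Lib.MP_4322ef_al.SR

section
variable {g : Type} [NormedAddCommGroup g] [InnerProductSpace ℝ g] {L : RedLie g}
  {Y : Type} [NormedAddCommGroup Y] [InnerProductSpace ℂ Y] [FiniteDimensional ℂ Y] (σ : Rep L Y)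

/-- the centralizer of `a₀` in `k₀` normalizes `n₀` -/
theorem br_m_n (C : CSub L) {Z : g} (hZ : L.br C.H₀ Z = 0) {N : g} (hN : N ∈ C.n) :
    L.br Z N ∈ C.n := by
  have h1 : C.n ≤ C.n.comap (L.br Z) := by
    refine Submodule.span_le.2 ?_
    rintro N ⟨c, hc, hcN⟩
    refine mem_n C hc ?_
    rw [L.jacobi, hZ, map_zero, LinearMap.zero_apply, zero_add, hcN, map_smul]
  exact h1 hN

theorem exists_u₁ (C : CSub L) (hσ : ∀ A y y', ⟪σ.op A y, y'⟫_ℂ = -⟪y, σ.op (L.th A) y'⟫_ℂ)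
    (h : g) (u₀ y₁ : Y) (hu : ∀ Z, L.th Z = Z → σ.op Z u₀ = 0)
    (hn : ∀ Z ∈ C.n, σ.op Z y₁ = 0) (hw : ∀ H ∈ C.a, σ.op H y₁ = (⟪h, H⟫_ℝ : ℂ) • y₁)
    (hne : ⟪u₀, y₁⟫_ℂ ≠ 0) : ∃ u₁ : Y, (∀ Z ∈ C.n, σ.op Z u₁ = 0) ∧
      (∀ H ∈ C.a, σ.op H u₁ = (⟪h, H⟫_ℝ : ℂ) • u₁) ∧
      (∀ Z, L.th Z = Z → L.br C.H₀ Z = 0 → σ.op Z u₁ = 0) ∧ ⟪u₀, u₁⟫_ℂ ≠ 0 := by
  let W : Submodule ℂ Y :=
    { carrier := {y | (∀ Z ∈ C.n, σ.op Z y = 0) ∧ ∀ H ∈ C.a, σ.op H y = (⟪h, H⟫_ℝ : ℂ) • y}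
      add_mem' := by
        rintro x y ⟨h1, h2⟩ ⟨h3, h4⟩
        refine ⟨fun Z hZ => ?_, fun H hH => ?_⟩
        · rw [map_add, h1 Z hZ, h3 Z hZ, add_zero]
        · rw [map_add, h2 H hH, h4 H hH, smul_add]
      zero_mem' := ⟨fun Z _ => map_zero _, fun H _ => by rw [map_zero, smul_zero]⟩
      smul_mem' := by
        rintro c x ⟨h1, h2⟩
        refine ⟨fun Z hZ => ?_, fun H hH => ?_⟩
        · rw [map_smul, h1 Z hZ, smul_zero]
        · rw [map_smul, h2 H hH, smul_comm] }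
  let u₁ : Y := W.starProjection u₀
  have hu₁ : u₁ ∈ W := W.starProjection_apply_mem u₀
  have hin : ∀ w ∈ W, ⟪u₁, w⟫_ℂ = ⟪u₀, w⟫_ℂ := by
    intro w hw'
    have h1 := Submodule.starProjection_inner_eq_zero (K := W) u₀ w hw'
    rw [inner_sub_left, sub_eq_zero] at h1
    exact h1.symm
  have hZW : ∀ Z, L.th Z = Z → L.br C.H₀ Z = 0 → ∀ w ∈ W, σ.op Z w ∈ W := by
    intro Z hZ hZ0 w hw'
    refine ⟨fun N hN => ?_, fun H hH => ?_⟩
    · have h1 := σ.bracket Z N w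
      rw [hw'.1 _ (br_m_n C hZ0 hN), hw'.1 N hN, map_zero, zero_sub] at h1
      exact neg_eq_zero.1 h1.symm
    · have h1 := σ.bracket H Z w
      rw [C.reg Z hZ0 H hH, Rep.zero', LinearMap.zero_apply, hw'.2 H hH, map_smul] at h1
      exact (sub_eq_zero.1 h1.symm)
  refine ⟨u₁, hu₁.1, hu₁.2, fun Z hZ hZ0 => ?_, ?_⟩
  · have h1 : σ.op Z u₁ ∈ W := hZW Z hZ hZ0 u₁ hu₁
    have h2 : ⟪σ.op Z u₁, σ.op Z u₁⟫_ℂ = 0 := by
      rw [hσ Z u₁, hZ, hin _ (hZW Z hZ hZ0 _ h1)]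
      have h3 := hσ Z u₀ (σ.op Z u₁)
      rw [hu Z hZ, inner_zero_left, hZ] at h3
      exact h3.symm
    exact inner_self_eq_zero.1 h2
  · intro h1
    have h2 : ⟪u₁, u₁⟫_ℂ = 0 := by rw [hin _ hu₁, h1]
    rw [inner_self_eq_zero] at h2
    apply hne
    rw [← hin y₁ ⟨hn, hw⟩, h2, inner_zero_left]

omit [FiniteDimensional ℂ Y] in
/-- a submodule which contains all eigenvectors of a skew operator is everything -/
theorem skew_span [FiniteDimensional ℂ Y] (A : Y →ₗ[ℂ] Y) (hA : ∀ x y, ⟪A x, y⟫_ℂ = -⟪x, A y⟫_ℂ)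
    (S : Submodule ℂ Y) (hS : ∀ y, y ≠ 0 → ∀ z : ℂ, A y = z • y → y ∈ S) (y : Y) : y ∈ S := by
  let F : Y →ₗ[ℂ] Y := Complex.I • A
  have hF : F.IsSymmetric := by
    intro x y
    show ⟪Complex.I • A x, y⟫_ℂ = ⟪x, Complex.I • A y⟫_ℂ
    rw [inner_smul_left, inner_smul_right, hA, Complex.conj_I]
    ring
  let e := hF.eigenvectorBasis rfl
  have he : ∀ j, e j ∈ S := by
    intro j
    refine hS _ (e.orthonormal.ne_zero j) (-Complex.I * (hF.eigenvalues rfl j : ℂ)) ?_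
    have h1 : Complex.I • A (e j) = (hF.eigenvalues rfl j : ℂ) • e j :=
      hF.apply_eigenvectorBasis rfl j
    rw [mul_smul, ← h1, smul_smul, neg_mul, Complex.I_mul_I, neg_neg, one_smul]
  rw [← e.sum_repr' y]
  exact S.sum_mem fun j _ => S.smul_mem _ (he j)

end

end Pool.Agent.Lib.MP_4322ef_al.SR
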